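import Mathlib
import Pool.Agent.H31.DPG2

set_option autoImplicit false
open Pool.Agent.H31.DPG

namespace Pool.Agent.Results.MP_f79b02_co.Tower

/-- rho with the forcing time read as: a clique is present after exactly t rounds. -/
noncomputable def rho (k : ℕ) : ℕ∞ :=
  ⨅ (n : ℕ) (G : SimpleGraph (Fin n)) (_ : G.CliqueFree 3) (t : ℕ) (_ : Force k t (Fin n) G),
    (t : ℕ∞)

/-- rho with the forcing time read as: a clique appears at some time at most t. -/
noncomputable def rhoBy (k : ℕ) : ℕ∞ :=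
  ⨅ (n : ℕ) (G : SimpleGraph (Fin n)) (_ : G.CliqueFree 3) (t : ℕ) (_ : ForceBy k t (Fin n) G),
    (t : ℕ∞)

theorem result : ∀ k : ℕ, 3 ≤ k →
    (tow (k - 35) : ℕ∞) ≤ rhoBy k ∧ rhoBy k ≤ rho k ∧ rho k ≤ (tow (k + 3) : ℕ∞) := by
  intro k hk
  refine ⟨?_, ?_, ?_⟩
  · simp only [rhoBy, le_iInf_iff, Nat.cast_le]
    exact fun n G hG t h => lower k t n hk G hG h
  · simp only [rho, le_iInf_iff]
    exact fun n G hG t h => iInf₂_le_of_le n G (iInf₂_le_of_le hG t (iInf_le _ h.by))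
  · obtain ⟨n, G, h1, t, h2, h3⟩ := main k
    exact iInf₂_le_of_le n G (iInf₂_le_of_le (h1.cliqueFree le_rfl) t
      ((iInf_le _ h3).trans (by exact_mod_cast h2)))

end Pool.Agent.Results.MP_f79b02_co.Tower
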